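import Pool.Agent.H20.RCC.Stmts

/-!
Board rcc, row CLR (backup).
-/

set_option autoImplicit false

namespace Pool.RCC

namespace CLRB

lemma pl (L b R p : ℕ) (hp : 0 < p) (hb : b < 4) (hL : L < p) :
    (L + p * (b + 4 * R)) / p % 4 = b := by
  rw [Nat.add_mul_div_left _ _ hp, Nat.div_eq_of_lt hL]
  omega

end CLRB

theorem CLR_thmB : CLRStmt := by
  intro d f h1 h9
  have m1 : min (f 1) 2 ≤ 2 := min_le_right _ _
  have m2 : min (f 2) 2 ≤ 2 := min_le_right _ _
  have m3 : min (f 3) 2 ≤ 2 := min_le_right _ _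
  have m4 : min (f 4) 2 ≤ 2 := min_le_right _ _
  have m5 : min (f 5) 2 ≤ 2 := min_le_right _ _
  have m6 : min (f 6) 2 ≤ 2 := min_le_right _ _
  have m7 : min (f 7) 2 ≤ 2 := min_le_right _ _
  have m8 : min (f 8) 2 ≤ 2 := min_le_right _ _
  have m9 : min (f 9) 2 ≤ 2 := min_le_right _ _
  interval_cases d
  · have h := CLRB.pl (0) (min (f 1) 2)
      (min (f 2) 2 + 4 * min (f 3) 2 + 16 * min (f 4) 2 + 64 * min (f 5) 2 + 256 * min (f 6) 2 + 1024 * min (f 7) 2 + 4096 * min (f 8) 2 + 16384 * min (f 9) 2) 1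
      (by norm_num) (by omega) (by omega)
    have e : enc f = (0) + 1 * (min (f 1) 2 + 4 * (min (f 2) 2 + 4 * min (f 3) 2 + 16 * min (f 4) 2 + 64 * min (f 5) 2 + 256 * min (f 6) 2 + 1024 * min (f 7) 2 + 4096 * min (f 8) 2 + 16384 * min (f 9) 2)) := by
      unfold enc; ring
    have h' : enc f / 4 ^ (1 - 1) % 4 = min (f 1) 2 := by
      rw [e]; norm_num only at h ⊢; exact h
    unfold clr
    rw [h', e]
    simp only [enc]
    norm_num
    omega
  · have h := CLRB.pl (min (f 1) 2) (min (f 2) 2)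
      (min (f 3) 2 + 4 * min (f 4) 2 + 16 * min (f 5) 2 + 64 * min (f 6) 2 + 256 * min (f 7) 2 + 1024 * min (f 8) 2 + 4096 * min (f 9) 2) 4
      (by norm_num) (by omega) (by omega)
    have e : enc f = (min (f 1) 2) + 4 * (min (f 2) 2 + 4 * (min (f 3) 2 + 4 * min (f 4) 2 + 16 * min (f 5) 2 + 64 * min (f 6) 2 + 256 * min (f 7) 2 + 1024 * min (f 8) 2 + 4096 * min (f 9) 2)) := by
      unfold enc; ring
    have h' : enc f / 4 ^ (2 - 1) % 4 = min (f 2) 2 := by
      rw [e]; norm_num only at h ⊢; exact h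
    unfold clr
    rw [h', e]
    simp only [enc]
    norm_num
    omega
  · have h := CLRB.pl (min (f 1) 2 + 4 * min (f 2) 2) (min (f 3) 2)
      (min (f 4) 2 + 4 * min (f 5) 2 + 16 * min (f 6) 2 + 64 * min (f 7) 2 + 256 * min (f 8) 2 + 1024 * min (f 9) 2) 16
      (by norm_num) (by omega) (by omega)
    have e : enc f = (min (f 1) 2 + 4 * min (f 2) 2) + 16 * (min (f 3) 2 + 4 * (min (f 4) 2 + 4 * min (f 5) 2 + 16 * min (f 6) 2 + 64 * min (f 7) 2 + 256 * min (f 8) 2 + 1024 * min (f 9) 2)) := by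
      unfold enc; ring
    have h' : enc f / 4 ^ (3 - 1) % 4 = min (f 3) 2 := by
      rw [e]; norm_num only at h ⊢; exact h
    unfold clr
    rw [h', e]
    simp only [enc]
    norm_num
    omega
  · have h := CLRB.pl (min (f 1) 2 + 4 * min (f 2) 2 + 16 * min (f 3) 2) (min (f 4) 2)
      (min (f 5) 2 + 4 * min (f 6) 2 + 16 * min (f 7) 2 + 64 * min (f 8) 2 + 256 * min (f 9) 2) 64
      (by norm_num) (by omega) (by omega)
    have e : enc f = (min (f 1) 2 + 4 * min (f 2) 2 + 16 * min (f 3) 2) + 64 * (min (f 4) 2 + 4 * (min (f 5) 2 + 4 * min (f 6) 2 + 16 * min (f 7) 2 + 64 * min (f 8) 2 + 256 * min (f 9) 2)) := by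
      unfold enc; ring
    have h' : enc f / 4 ^ (4 - 1) % 4 = min (f 4) 2 := by
      rw [e]; norm_num only at h ⊢; exact h
    unfold clr
    rw [h', e]
    simp only [enc]
    norm_num
    omega
  · have h := CLRB.pl (min (f 1) 2 + 4 * min (f 2) 2 + 16 * min (f 3) 2 + 64 * min (f 4) 2) (min (f 5) 2)
      (min (f 6) 2 + 4 * min (f 7) 2 + 16 * min (f 8) 2 + 64 * min (f 9) 2) 256
      (by norm_num) (by omega) (by omega)
    have e : enc f = (min (f 1) 2 + 4 * min (f 2) 2 + 16 * min (f 3) 2 + 64 * min (f 4) 2) + 256 * (min (f 5) 2 + 4 * (min (f 6) 2 + 4 * min (f 7) 2 + 16 * min (f 8) 2 + 64 * min (f 9) 2)) := by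
      unfold enc; ring
    have h' : enc f / 4 ^ (5 - 1) % 4 = min (f 5) 2 := by
      rw [e]; norm_num only at h ⊢; exact h
    unfold clr
    rw [h', e]
    simp only [enc]
    norm_num
    omega
  · have h := CLRB.pl (min (f 1) 2 + 4 * min (f 2) 2 + 16 * min (f 3) 2 + 64 * min (f 4) 2 + 256 * min (f 5) 2) (min (f 6) 2)
      (min (f 7) 2 + 4 * min (f 8) 2 + 16 * min (f 9) 2) 1024
      (by norm_num) (by omega) (by omega)
    have e : enc f = (min (f 1) 2 + 4 * min (f 2) 2 + 16 * min (f 3) 2 + 64 * min (f 4) 2 + 256 * min (f 5) 2) + 1024 * (min (f 6) 2 + 4 * (min (f 7) 2 + 4 * min (f 8) 2 + 16 * min (f 9) 2)) := by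
      unfold enc; ring
    have h' : enc f / 4 ^ (6 - 1) % 4 = min (f 6) 2 := by
      rw [e]; norm_num only at h ⊢; exact h
    unfold clr
    rw [h', e]
    simp only [enc]
    norm_num
    omega
  · have h := CLRB.pl (min (f 1) 2 + 4 * min (f 2) 2 + 16 * min (f 3) 2 + 64 * min (f 4) 2 + 256 * min (f 5) 2 + 1024 * min (f 6) 2) (min (f 7) 2)
      (min (f 8) 2 + 4 * min (f 9) 2) 4096
      (by norm_num) (by omega) (by omega)
    have e : enc f = (min (f 1) 2 + 4 * min (f 2) 2 + 16 * min (f 3) 2 + 64 * min (f 4) 2 + 256 * min (f 5) 2 + 1024 * min (f 6) 2) + 4096 * (min (f 7) 2 + 4 * (min (f 8) 2 + 4 * min (f 9) 2)) := by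
      unfold enc; ring
    have h' : enc f / 4 ^ (7 - 1) % 4 = min (f 7) 2 := by
      rw [e]; norm_num only at h ⊢; exact h
    unfold clr
    rw [h', e]
    simp only [enc]
    norm_num
    omega
  · have h := CLRB.pl (min (f 1) 2 + 4 * min (f 2) 2 + 16 * min (f 3) 2 + 64 * min (f 4) 2 + 256 * min (f 5) 2 + 1024 * min (f 6) 2 + 4096 * min (f 7) 2) (min (f 8) 2)
      (min (f 9) 2) 16384
      (by norm_num) (by omega) (by omega)
    have e : enc f = (min (f 1) 2 + 4 * min (f 2) 2 + 16 * min (f 3) 2 + 64 * min (f 4) 2 + 256 * min (f 5) 2 + 1024 * min (f 6) 2 + 4096 * min (f 7) 2) + 16384 * (min (f 8) 2 + 4 * (min (f 9) 2)) := by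
      unfold enc; ring
    have h' : enc f / 4 ^ (8 - 1) % 4 = min (f 8) 2 := by
      rw [e]; norm_num only at h ⊢; exact h
    unfold clr
    rw [h', e]
    simp only [enc]
    norm_num
    omega
  · have h := CLRB.pl (min (f 1) 2 + 4 * min (f 2) 2 + 16 * min (f 3) 2 + 64 * min (f 4) 2 + 256 * min (f 5) 2 + 1024 * min (f 6) 2 + 4096 * min (f 7) 2 + 16384 * min (f 8) 2) (min (f 9) 2)
      (0) 65536
      (by norm_num) (by omega) (by omega)
    have e : enc f = (min (f 1) 2 + 4 * min (f 2) 2 + 16 * min (f 3) 2 + 64 * min (f 4) 2 + 256 * min (f 5) 2 + 1024 * min (f 6) 2 + 4096 * min (f 7) 2 + 16384 * min (f 8) 2) + 65536 * (min (f 9) 2 + 4 * (0)) := by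
      unfold enc; ring
    have h' : enc f / 4 ^ (9 - 1) % 4 = min (f 9) 2 := by
      rw [e]; norm_num only at h ⊢; exact h
    unfold clr
    rw [h', e]
    simp only [enc]
    norm_num
    omega

end Pool.RCC
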