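import Pool.Agent.H20.RT.Stmts

/-!
Board rcc (MP_a315fd_nt, Conway's RATS sequences), helper20: definitions.
Almost every RATS sequence has a term with all but K digits equal to 1.
-/

set_option autoImplicit false

namespace Pool.RCC

/-! ### words given by digit counts -/

/-- little endian sorted list with c d digits d, d = 1, ..., 9 -/
def wd (c : ℕ → ℕ) : List ℕ :=
  List.replicate (c 9) 9 ++ (List.replicate (c 8) 8 ++ (List.replicate (c 7) 7 ++
    (List.replicate (c 6) 6 ++ (List.replicate (c 5) 5 ++ (List.replicate (c 4) 4 ++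
    (List.replicate (c 3) 3 ++ (List.replicate (c 2) 2 ++ List.replicate (c 1) 1)))))))

/-- the number with c d digits d, sorted -/
def W (c : ℕ → ℕ) : ℕ := Nat.ofDigits 10 (wd c)

/-- number of nonzero digits -/
def tot (v : ℕ → ℕ) : ℕ := v 1 + v 2 + v 3 + v 4 + v 5 + v 6 + v 7 + v 8 + v 9

/-! ### columns -/

/-- the digits of a column addition with column sums s (least significant first), carry in c -/
def ad : ℕ → List ℕ → List ℕ
  | _, [] => []
  | c, s :: t => (s + c) % 10 :: ad ((s + c) / 10) t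

/-- the carry out -/
def co : ℕ → List ℕ → ℕ
  | c, [] => c
  | c, s :: t => co ((s + c) / 10) t

/-- column sums of the outer zone: H = digits above k+1 (largest first), L = digits below k
(smallest first) -/
def zn (k : ℕ) : List ℕ → List ℕ → List ℕ
  | [], [] => []
  | h :: H, [] => (h + k) :: zn k H []
  | [], l :: L => (k + 1 + l) :: zn k [] L
  | h :: H, l :: L => (h + l) :: zn k H L

/-! ### states: k = 0, ..., 8; long runs of the digits lo k and k + 1; strays v -/

def lo (k : ℕ) : ℕ := if k = 0 then 9 else k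

/-- digit counts of the state: p digits lo k, q digits k + 1, strays v -/
def cv (k p q : ℕ) (v : ℕ → ℕ) : ℕ → ℕ :=
  fun d => if d = lo k then p else if d = k + 1 then q else v d

/-- v is a stray vector for k -/
def OK (k : ℕ) (v : ℕ → ℕ) : Prop :=
  k ≤ 8 ∧ v 0 = 0 ∧ (∀ d, 10 ≤ d → v d = 0) ∧ v (lo k) = 0 ∧ v (k + 1) = 0

/-- strays above k + 1, largest first -/
def Hi (k : ℕ) (v : ℕ → ℕ) : List ℕ := (wd v).filter (fun d => decide (k + 1 < d))

/-- strays below k, smallest first -/
def Lw (k : ℕ) (v : ℕ → ℕ) : List ℕ := ((wd v).filter (fun d => decide (d < k))).reverse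

/-- the zone of a state (k at least 1) -/
def Z (k : ℕ) (v : ℕ → ℕ) : List ℕ := zn k (Hi k v) (Lw k v)

/-- carry of the right zone into the long runs -/
def cR (k : ℕ) (v : ℕ → ℕ) : ℕ := co 0 (Z k v)

/-- carry after the first long run of column sums 2k+1 -/
def c1 (k c : ℕ) : ℕ := (2 * k + 1 + c) / 10
/-- carry after the middle run (column sums 2k for δ = 0, 2k+2 for δ = 1) -/
def c2 (k δ c : ℕ) : ℕ := (2 * k + 2 * δ + c1 k c) / 10
/-- carry after the last long run -/
def c3 (k δ c : ℕ) : ℕ := (2 * k + 1 + c2 k δ c) / 10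

/-- all digits produced outside the steady parts of the three long runs (k at least 1) -/
def outs (k δ : ℕ) (v : ℕ → ℕ) : List ℕ :=
  ad 0 (Z k v) ++ (ad (c3 k δ (cR k v)) (Z k v).reverse ++
    [co (c3 k δ (cR k v)) (Z k v).reverse, (2 * k + 1 + cR k v) % 10,
      (2 * k + 2 * δ + c1 k (cR k v)) % 10, (2 * k + 1 + c2 k δ (cR k v)) % 10])

/-- the same for k = 0, δ = 1 -/
def outs0 (v : ℕ → ℕ) : List ℕ :=
  ad 1 ((wd v).map (· + 1)) ++ (ad 0 ((wd v).map (· + 1)).reverse ++
    [2 + co 1 ((wd v).map (· + 1))])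

/-- the new k -/
def nk (k δ : ℕ) : ℕ := (2 * k + δ) % 9

/-- d is a possible stray digit for k -/
def sd (k d : ℕ) : Prop := d ≠ 0 ∧ d ≤ 9 ∧ d ≠ lo k ∧ d ≠ k + 1

instance (k d : ℕ) : Decidable (sd k d) := by unfold sd; infer_instance

/-- the new strays -/
def stp (k δ : ℕ) (v : ℕ → ℕ) : ℕ → ℕ := fun d =>
  if sd (nk k δ) d then
    (if k = 0 then (if δ = 0 then 2 * v d else (outs0 v).count d) else (outs k δ v).count d)
  else 0

/-- the step collapses to a number with almost all digits 1 -/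
def coll (k δ : ℕ) (v : ℕ → ℕ) : Prop := k = 4 ∧ δ = 1 ∧ cR 4 v = 1

/-- size bound used everywhere -/
def Mv (v : ℕ → ℕ) : ℕ := 4 * tot v + 8

/-- the word w of choices leads from (k, v) to a collapse -/
def CW : List ℕ → ℕ → (ℕ → ℕ) → Prop
  | [], _, _ => False
  | δ :: w, k, v => coll k δ v ∨ CW w (nk k δ) (stp k δ v)

/-! ### the goal -/

/-- number of digits different from 1 -/
def nz (m : ℕ) : ℕ := ((Nat.digits 10 m).filter (fun d => decide (d ≠ 1))).length

/-- some iterate of n has at most K digits different from 1 -/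
def Rc (K n : ℕ) : Prop := ∃ j : ℕ, nz (Pool.RT.T^[j] n) ≤ K

/-- the number 1^x 2^y -/
def ones12 (x y : ℕ) : ℕ := Nat.ofDigits 10 (List.replicate y 2 ++ List.replicate x 1)

/-! ### measure part -/

/-- admissible slopes: p = A - B y, q = C y - D -/
def Rt (k : ℕ) (B C : ℤ) : Prop :=
  0 < B ∧ 0 < C ∧
  (if k = 8 then 2 * B ≤ 5 * C else if k = 7 then 4 * B ≤ 7 * C else 2 * B ≤ 3 * C) ∧
  (if k = 0 then 2 * C ≤ 5 * B else if k = 1 then 4 * C ≤ 7 * B else 2 * C ≤ 3 * B)

/-- parameters y for which p, q are not negative and the sequence does not reach a number with at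
most K digits different from 1 -/
def bad (K k : ℕ) (v : ℕ → ℕ) (A B C D : ℤ) : Set ℤ :=
  {y : ℤ | 0 ≤ A - B * y ∧ 0 ≤ C * y - D ∧
    ¬ Rc K (W (cv k (A - B * y).toNat (C * y - D).toNat v))}

/-- the bad set has at most g * (length of the parameter interval) + E elements -/
def BD (g : ℝ) (k : ℕ) (v : ℕ → ℕ) (E : ℝ) (K : ℕ) : Prop :=
  ∀ A B C D : ℤ, Rt k B C →
    ((bad K k v A B C D).ncard : ℝ) ≤ g * max 0 ((A : ℝ) / B - (D : ℝ) / C) + E

/-! ### abstract part (codes base 4, digit d at place d - 1) -/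

/-- class of the digit d in the code a -/
def gt (d a : ℕ) : ℕ := a / 4 ^ (d - 1) % 4

/-- the code a fits the counts v: class 3 = anything, class c < 3 = min (v d) 2 -/
def Mt (a : ℕ) (v : ℕ → ℕ) : Prop :=
  a < 4 ^ 9 ∧ ∀ d, 1 ≤ d → d ≤ 9 → gt d a = 3 ∨ gt d a = min (v d) 2

/-- code of the saturated counts -/
def enc (v : ℕ → ℕ) : ℕ :=
  min (v 1) 2 + 4 * min (v 2) 2 + 16 * min (v 3) 2 + 64 * min (v 4) 2 + 256 * min (v 5) 2 +
  1024 * min (v 6) 2 + 4096 * min (v 7) 2 + 16384 * min (v 8) 2 + 65536 * min (v 9) 2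

/-- options for the next high digit (h, new code); digits at most d are still to be looked at -/
def hi (k : ℕ) : ℕ → ℕ → List (ℕ × ℕ)
  | 0, a => [(k + 1, a)]
  | d + 1, a =>
    if d ≤ k then [(k + 1, a)] else
    if a / 4 ^ d % 4 = 0 then hi k d a else
    if a / 4 ^ d % 4 = 1 then [(d + 1, a - 4 ^ d)] else
    if a / 4 ^ d % 4 = 2 then [(d + 1, a), (d + 1, a - 4 ^ d)] else
    (d + 1, a) :: hi k d (a - 3 * 4 ^ d)

/-- options for the next low digit; f = fuel, d + 1 = digit looked at -/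
def lw (k : ℕ) : ℕ → ℕ → ℕ → List (ℕ × ℕ)
  | 0, _, a => [(k, a)]
  | f + 1, d, a =>
    if k ≤ d + 1 then [(k, a)] else
    if a / 4 ^ d % 4 = 0 then lw k f (d + 1) a else
    if a / 4 ^ d % 4 = 1 then [(d + 1, a - 4 ^ d)] else
    if a / 4 ^ d % 4 = 2 then [(d + 1, a), (d + 1, a - 4 ^ d)] else
    (d + 1, a) :: lw k f (d + 1) (a - 3 * 4 ^ d)

/-- saturated addition of one digit d to the code o (digit 0 is dropped) -/
def sadd (d o : ℕ) : ℕ :=
  if d = 0 then o else if o / 4 ^ (d - 1) % 4 < 2 then o + 4 ^ (d - 1) else o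

/-- code of a configuration: remaining strays a, output o, right carry c, left carry g -/
def cd (a o c g : ℕ) : ℕ := a + 262144 * (o + 262144 * (c + 2 * g))

def ca (X : ℕ) : ℕ := X % 262144
def cO (X : ℕ) : ℕ := X / 262144 % 262144
def cc (X : ℕ) : ℕ := X / 68719476736 % 2
def cg (X : ℕ) : ℕ := X / 137438953472

/-- one column: letters h, l; the carry g into the left column is guessed -/
def nx1 (X h a' l : ℕ) (g : ℕ) : List ℕ :=
  if (h + l + g) / 10 = cg X then
    [cd a' (sadd ((h + l + g) % 10) (sadd ((h + l + cc X) % 10) (cO X))) ((h + l + cc X) / 10) g]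
  else []

/-- successors of a configuration -/
def nxt (k X : ℕ) : List ℕ :=
  (hi k 9 (ca X)).flatMap fun h => (lw k 8 0 h.2).flatMap fun l =>
    if h.1 = k + 1 ∧ l.1 = k then [] else nx1 X h.1 l.2 l.1 0 ++ nx1 X h.1 l.2 l.1 1

/-- all classes of a are 0 or 3 -/
def fin9 (a : ℕ) : Bool :=
  (List.range 9).all fun i => a / 4 ^ i % 4 == 0 || a / 4 ^ i % 4 == 3

/-- remove digit d from the code o -/
def clr (d o : ℕ) : ℕ := o - (o / 4 ^ (d - 1) % 4) * 4 ^ (d - 1)

/-- final code of the new strays -/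
def res (k δ X : ℕ) : ℕ :=
  clr (lo (nk k δ)) (clr (nk k δ + 1)
    (sadd ((2 * k + 1 + c2 k δ (cc X)) % 10) (sadd ((2 * k + 2 * δ + c1 k (cc X)) % 10)
      (sadd ((2 * k + 1 + cc X) % 10) (cO X)))))

/-- membership of a natural number in a list -/
def mem (x : ℕ) : List ℕ → Bool
  | [] => false
  | y :: t => cond (Nat.beq x y) true (mem x t)

/-- check of one configuration: successors in I; if it can be final, the result is in S -/
def okX (k δ : ℕ) (I S : List ℕ) (X : ℕ) : Bool :=
  (nxt k X).all (fun Y => mem Y I) &&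
    (!(fin9 (ca X)) || !(decide (cg X = c3 k δ (cc X))) ||
      (decide (k = 4) && decide (δ = 1) && decide (cc X = 1)) || mem (res k δ X) S)

/-- check of a closure -/
def okI (k δ a : ℕ) (I S : List ℕ) : Bool :=
  mem (cd a 0 0 0) I && mem (cd a 1 0 1) I && I.all (okX k δ I S)

end Pool.RCC
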