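import Pool.Agent.H20.RCC.Stmts

/-!
Board rcc, row G1 (backup).
-/

set_option autoImplicit false

namespace Pool.RCC

namespace G1B

theorem W_congr {F G : ℕ → ℕ} (h : ∀ d, 1 ≤ d → d ≤ 9 → F d = G d) : W F = W G := by
  unfold W wd
  rw [h 1 (by norm_num) (by norm_num), h 2 (by norm_num) (by norm_num),
    h 3 (by norm_num) (by norm_num), h 4 (by norm_num) (by norm_num),
    h 5 (by norm_num) (by norm_num), h 6 (by norm_num) (by norm_num),
    h 7 (by norm_num) (by norm_num), h 8 (by norm_num) (by norm_num),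
    h 9 (by norm_num) (by norm_num)]

theorem key (k' : ℕ) (F S : ℕ → ℕ) (h : ∀ d, sd k' d → F d = S d) :
    W F = W (cv k' (F (lo k')) (F (k' + 1)) S) := by
  apply W_congr
  intro d h1 h9
  unfold cv
  by_cases e1 : d = lo k'
  · rw [if_pos e1, e1]
  · rw [if_neg e1]
    by_cases e2 : d = k' + 1
    · rw [if_pos e2, e2]
    · rw [if_neg e2]
      exact h d ⟨by omega, h9, e1, e2⟩

theorem tab0 (k c : ℕ) (h1 : 1 ≤ k) (h8 : k ≤ 8) (hc : c ≤ 1) :
    (2 * k + 2 * 0 + c2 k 0 c) % 10 = lo (nk k 0) ∧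
    (2 * k + 1 + c3 k 0 c) % 10 = nk k 0 + 1 ∧
    (k = 4 → c = 1 → (2 * k + 1 + c1 k c) % 10 = 0) ∧
    (¬ (k = 4 ∧ c = 1) → (2 * k + 1 + c1 k c) % 10 = nk k 0 + 1) := by
  interval_cases k <;> interval_cases c <;> decide

theorem tab1 (k c : ℕ) (h1 : 1 ≤ k) (h8 : k ≤ 8) (hc : c ≤ 1) (hn : ¬ (k = 4 ∧ c = 1)) :
    (2 * k + 2 * 1 + c2 k 1 c) % 10 = nk k 1 + 1 ∧
    (2 * k + 1 + c1 k c) % 10 = lo (nk k 1) ∧
    (k = 4 → (2 * k + 1 + c3 k 1 c) % 10 = 0) ∧
    (k ≠ 4 → (2 * k + 1 + c3 k 1 c) % 10 = lo (nk k 1)) := by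
  interval_cases k <;> interval_cases c <;> first | decide | (exfalso; exact hn ⟨rfl, rfl⟩)

theorem lo_ne (k : ℕ) (h8 : k ≤ 8) : lo k ≠ k + 1 := by
  interval_cases k <;> decide

theorem lo_pos (k : ℕ) : lo k ≠ 0 := by
  unfold lo
  split_ifs with h
  · norm_num
  · exact h

end G1B

open G1B

theorem G1_thmB (hN : NXTStmt) (hH : HLPStmt) (hZ : ZNPStmt) (hA : ARStmt) : G1Stmt := by
  intro k δ v hv hk hδ hcoll
  obtain ⟨hA1, hA2, hA3, hA4⟩ := hA
  have hk8 : k ≤ 8 := hv.1
  obtain ⟨-, -, hHb, hLb, -, hlen⟩ := hH k v hv hk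
  have hzl : (Z k v).length = max (Hi k v).length (Lw k v).length := (hZ k _ _).1
  have hz17 : ∀ s ∈ Z k v, s ≤ 17 :=
    (hZ k _ _).2 hk8 (fun h hh => (hHb h hh).2) (fun l hl => (hLb l hl).2)
  have hcR : cR k v ≤ 1 := hA4 0 _ (by norm_num) (fun s hs => by have := hz17 s hs; omega)
  have hout : (outs k δ v).length = 2 * (Z k v).length + 4 := by
    simp only [outs, List.length_append, hA2, List.length_reverse, List.length_cons,
      List.length_nil]
    omega
  have hcnt : ∀ d, (outs k δ v).count d ≤ 2 * (Z k v).length + 4 := fun d => by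
    rw [← hout]; exact List.count_le_length
  have hnk : nk k δ ≤ 8 := by unfold nk; omega
  have hlone := lo_ne (nk k δ) hnk
  have hstp : ∀ d, sd (nk k δ) d → stp k δ v d = (outs k δ v).count d := by
    intro d hd
    unfold stp
    rw [if_pos hd, if_neg (by omega)]
  have hMv : Mv v = 4 * tot v + 8 := rfl
  set a := (Hi k v).length with ha
  set b := (Lw k v).length with hb
  set m := (Z k v).length with hm
  have h1 := hcnt (lo (nk k δ))
  have h2 := hcnt (nk k δ + 1)
  have hδ' : δ = 0 ∨ δ = 1 := by omega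
  rcases hδ' with rfl | rfl
  · -- δ = 0
    obtain ⟨t1, t2, t3, t4⟩ := tab0 k (cR k v) hk hk8 hcR
    by_cases hfl : k = 4 ∧ cR k v = 1
    · have s1 := t3 hfl.1 hfl.2
      have hcond : k = 4 ∧ cR 4 v = 1 := ⟨hfl.1, by rw [← hfl.2, hfl.1]⟩
      refine ⟨((outs k 0 v).count (lo (nk k 0)) : ℤ) + b - a - 1,
        ((outs k 0 v).count (nk k 0 + 1) : ℤ) + a - m - 1, ?_, ?_, ?_⟩
      · rw [abs_le, hMv]; push_cast; constructor <;> omega
      · rw [abs_le, hMv]; push_cast; constructor <;> omega
      · intro p q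
        refine ⟨fun _ hq hp => ?_, fun h => absurd h (by norm_num)⟩
        rw [hMv] at hq hp
        have hn := hN k 0 (a + q - m) (b + p - a - q) p q v hv hk (by norm_num) (by omega)
          (by omega) (fun _ => ⟨by omega, by omega⟩) (fun h => absurd h (by norm_num))
        rw [s1, t1, t2] at hn
        refine ⟨_, _, ?_, ?_, hn.trans (key (nk k 0) _ (stp k 0 v) ?_)⟩
        · rw [if_neg (lo_pos _), if_pos rfl, if_neg hlone]
          push_cast
          omega
        · rw [if_neg (Nat.succ_ne_zero _), if_neg (Ne.symm hlone), if_pos rfl,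
            if_pos hcond]
          push_cast
          omega
        · intro d hd
          rw [if_neg hd.1, if_neg hd.2.2.1, if_neg hd.2.2.2, hstp d hd]
          rfl
    · have s1 := t4 hfl
      have hcond : ¬ (k = 4 ∧ cR 4 v = 1) := by
        rintro ⟨h4, hc⟩
        exact hfl ⟨h4, by rw [h4]; exact hc⟩
      refine ⟨((outs k 0 v).count (lo (nk k 0)) : ℤ) + b - a - 1,
        ((outs k 0 v).count (nk k 0 + 1) : ℤ) + 2 * a - 2 * m - 2, ?_, ?_, ?_⟩
      · rw [abs_le, hMv]; push_cast; constructor <;> omega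
      · rw [abs_le, hMv]; push_cast; constructor <;> omega
      · intro p q
        refine ⟨fun _ hq hp => ?_, fun h => absurd h (by norm_num)⟩
        rw [hMv] at hq hp
        have hn := hN k 0 (a + q - m) (b + p - a - q) p q v hv hk (by norm_num) (by omega)
          (by omega) (fun _ => ⟨by omega, by omega⟩) (fun h => absurd h (by norm_num))
        rw [s1, t1, t2] at hn
        refine ⟨_, _, ?_, ?_, hn.trans (key (nk k 0) _ (stp k 0 v) ?_)⟩
        · rw [if_neg hlone, if_pos rfl]
          push_cast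
          omega
        · rw [if_pos rfl, if_neg (Ne.symm hlone), if_neg hcond]
          push_cast
          omega
        · intro d hd
          rw [if_neg hd.2.2.2, if_neg hd.2.2.1, hstp d hd]
          rfl
  · -- δ = 1
    have hn4 : ¬ (k = 4 ∧ cR k v = 1) := by
      rintro ⟨h4, hc⟩
      exact hcoll ⟨h4, rfl, by rw [h4] at hc; exact hc⟩
    obtain ⟨t1, t2, t3, t4⟩ := tab1 k (cR k v) hk hk8 hcR hn4
    by_cases h4 : k = 4
    · have s3 := t3 h4
      refine ⟨((outs k 1 v).count (lo (nk k 1)) : ℤ) + b - m - 1,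
        ((outs k 1 v).count (nk k 1 + 1) : ℤ) + a - b - 1, ?_, ?_, ?_⟩
      · rw [abs_le, hMv]; push_cast; constructor <;> omega
      · rw [abs_le, hMv]; push_cast; constructor <;> omega
      · intro p q
        refine ⟨fun h => absurd h (by norm_num), fun _ hp hq => ?_⟩
        rw [hMv] at hq hp
        have hn := hN k 1 (b + p - m) (a + q - b - p) p q v hv hk (by norm_num) (by omega)
          (by omega) (fun h => absurd h (by norm_num)) (fun _ => ⟨by omega, by omega⟩)
        rw [t2, t1, s3] at hn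
        refine ⟨_, _, ?_, ?_, hn.trans (key (nk k 1) _ (stp k 1 v) ?_)⟩
        · rw [if_pos rfl, if_neg hlone, if_neg (lo_pos _), if_pos h4]
          push_cast
          omega
        · rw [if_neg (Ne.symm hlone), if_pos rfl, if_neg (Nat.succ_ne_zero _)]
          push_cast
          omega
        · intro d hd
          rw [if_neg hd.2.2.1, if_neg hd.2.2.2, if_neg hd.1, hstp d hd]
          rfl
    · have s3 := t4 h4
      refine ⟨((outs k 1 v).count (lo (nk k 1)) : ℤ) + 2 * b - 2 * m - 2,
        ((outs k 1 v).count (nk k 1 + 1) : ℤ) + a - b - 1, ?_, ?_, ?_⟩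
      · rw [abs_le, hMv]; push_cast; constructor <;> omega
      · rw [abs_le, hMv]; push_cast; constructor <;> omega
      · intro p q
        refine ⟨fun h => absurd h (by norm_num), fun _ hp hq => ?_⟩
        rw [hMv] at hq hp
        have hn := hN k 1 (b + p - m) (a + q - b - p) p q v hv hk (by norm_num) (by omega)
          (by omega) (fun h => absurd h (by norm_num)) (fun _ => ⟨by omega, by omega⟩)
        rw [t2, t1, s3] at hn
        refine ⟨_, _, ?_, ?_, hn.trans (key (nk k 1) _ (stp k 1 v) ?_)⟩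
        · rw [if_pos rfl, if_neg hlone, if_neg h4]
          push_cast
          omega
        · rw [if_neg (Ne.symm hlone), if_pos rfl]
          push_cast
          omega
        · intro d hd
          rw [if_neg hd.2.2.1, if_neg hd.2.2.2, hstp d hd]
          rfl

end Pool.RCC
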