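import Pool.Agent.H90.RCC.GC

/-!
Board rcc: the collapse with the number of digits 1.
-/

set_option autoImplicit false

namespace Pool.RCC

theorem digits_W (c : ℕ → ℕ) : Nat.digits 10 (W c) = wd c := by
  unfold W
  refine Nat.digits_ofDigits 10 (by norm_num) _ ?_ ?_
  · intro x hx
    simp only [wd, List.mem_append, List.mem_replicate] at hx
    omega
  · intro h
    have hx := List.getLast_mem h
    intro h0
    rw [h0] at hx
    simp only [wd, List.mem_append, List.mem_replicate] at hx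
    omega

theorem count_one_W (c : ℕ → ℕ) : (Nat.digits 10 (W c)).count 1 = c 1 := by
  rw [digits_W]
  simp [wd, List.count_append, List.count_replicate]

/-- GC with the number of digits 1 -/
def GC2Stmt : Prop := ∀ v : ℕ → ℕ, OK 4 v → cR 4 v = 1 → ∀ p q : ℕ, Mv v ≤ p → p + Mv v ≤ q →
  nz (Pool.RT.T (W (cv 4 p q v))) ≤ Mv v ∧
  q ≤ p + Mv v + (Nat.digits 10 (Pool.RT.T (W (cv 4 p q v)))).count 1

theorem GC2_thm (hNXT : NXTStmt) (hHLP : HLPStmt) (hZNP : ZNPStmt) (hAR : ARStmt) : GC2Stmt := by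
  intro v hOK hcR p q hp hq
  refine ⟨GC_thm hNXT hHLP hZNP hAR v hOK hcR p q hp hq, ?_⟩
  obtain ⟨_, _, _, _, _, hl⟩ := hHLP 4 v hOK (by norm_num)
  have hZ : (Z 4 v).length = max (Hi 4 v).length (Lw 4 v).length :=
    (hZNP 4 (Hi 4 v) (Lw 4 v)).1
  unfold Mv at hp hq
  have e := hNXT 4 1 (p + (Lw 4 v).length - (Z 4 v).length)
    ((Hi 4 v).length + q - (Lw 4 v).length - p) p q v hOK (by norm_num) le_rfl
    (by omega) (by omega) (by omega) (by intro _; constructor <;> omega)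
  have k1 : c1 4 (cR 4 v) = 1 := by rw [hcR]; rfl
  have k2 : c2 4 1 (cR 4 v) = 1 := by unfold c2; rw [k1]
  have k3 : c3 4 1 (cR 4 v) = 1 := by unfold c3; rw [k2]
  rw [e, count_one_W, k1, k2, k3]
  unfold Mv
  norm_num
  omega

end Pool.RCC
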