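import Pool.Agent.H20.RCC.Stmts

/-!
Board rcc, row PLM (backup).
-/

set_option autoImplicit false

namespace Pool.RCC

theorem mem_iff (x : ℕ) (l : List ℕ) : mem x l = true ↔ x ∈ l := by
  induction l with
  | nil => simp [mem]
  | cons y t ih =>
    rw [List.mem_cons, ← ih, mem]
    by_cases h : x = y
    · subst h
      simp
    · have : Nat.beq x y = false := by
        rw [Bool.eq_false_iff]
        intro hh
        exact h (Nat.eq_of_beq_eq_true hh)
      rw [this]
      simp [h]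

/-- four steps lead to k = 4 -/
theorem four (k : ℕ) (hk : k ≤ 8) : ∃ a b c d : ℕ, a ≤ 1 ∧ b ≤ 1 ∧ c ≤ 1 ∧ d ≤ 1 ∧
    nk (nk (nk (nk k a) b) c) d = 4 := by
  have hj : (4 + 2 * k) % 9 < 16 := by omega
  refine ⟨(4 + 2 * k) % 9 / 8, (4 + 2 * k) % 9 / 4 % 2, (4 + 2 * k) % 9 / 2 % 2,
    (4 + 2 * k) % 9 % 2, by omega, by omega, by omega, by omega, ?_⟩
  interval_cases k <;> rfl

theorem PLM_thmB (hG : GAMStmt) (hR : RESStmt) (hO : OKSStmt) : PLMStmt := by
  intro C t S I hC hI hM hS k v hv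
  have hg := hG C [] 0 (by simp) hC
  -- the state k = 4
  have h4 : ∀ v, OK 4 v → ∃ w : List ℕ, (∀ δ ∈ w, δ ≤ 1) ∧ w.length ≤ C.length + 1 ∧ CW w 4 v := by
    intro v hv
    rcases hR 4 0 t I S v hv (by norm_num) (by norm_num) (hM v hv) hI with h | h
    · exact absurd h.2.1 (by norm_num)
    · have h2 := hS _ h
      rw [mem_iff, List.mem_map] at h2
      obtain ⟨e, he, hk⟩ := h2
      have h3 := hg e he
      rw [hk] at h3
      obtain ⟨w, hw, hl, hc⟩ := h3 8 (stp 4 0 v) (hO 4 0 v hv) rfl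
      refine ⟨0 :: w, ?_, ?_, Or.inr hc⟩
      · intro δ hδ
        rcases List.mem_cons.1 hδ with rfl | h
        · norm_num
        · exact hw δ h
      · simp only [List.length_cons]; omega
  obtain ⟨a, b, c, d, ha, hb, hc, hd, he⟩ := four k hv.1
  have o1 := hO k a v hv
  have o2 := hO _ b _ o1
  have o3 := hO _ c _ o2
  have o4 := hO _ d _ o3
  rw [he] at o4
  obtain ⟨w, hw, hl, hcw⟩ := h4 _ o4
  refine ⟨a :: b :: c :: d :: w, ?_, ?_, ?_⟩
  · intro δ hδ
    simp only [List.mem_cons] at hδ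
    rcases hδ with rfl | rfl | rfl | rfl | h
    · exact ha
    · exact hb
    · exact hc
    · exact hd
    · exact hw δ h
  · simp only [List.length_cons]; omega
  · right; right; right; right
    rw [he]
    exact hcw

end Pool.RCC
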