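import Pool.Agent.H20.RCC.Defs

/-!
Board rcc (MP_a315fd_nt), helper20: statements of all rows. Row XXX = def XXXStmt : Prop.
File of row XXX: Pool/Agent/H<n>/RCC/XXX.lean, namespace Pool.RCC,
theorem XXX_thm (hA : AStmt) (hB : BStmt) ... : XXXStmt with the needs as hypotheses.
-/

set_option autoImplicit false

namespace Pool.RCC

/-! ### Part 1: the concrete step -/

/-- TW. By Pool.RT.STPStmt (hypothesis; H20/RT/Stmts.lean) with u = wd c (all entries 1..9) and
m = ad 0 s ++ [co 0 s] (all entries < 10: s has entries <= 18, carries <= 1). Needs two small lemmas: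
ofDigits 10 (ad c s ++ [co c s]) = c + ofDigits 10 s (induction on s), and
ofDigits 10 (zipWith add x y) = ofDigits 10 x + ofDigits 10 y for x.length = y.length.
Wd a1 .. a9 = W (fun ..) by rfl / unfold. -/
def TWStmt : Prop := ∀ (c : ℕ → ℕ) (s : List ℕ),
  List.zipWith (· + ·) (wd c) (wd c).reverse = s →
  Pool.RT.T (W c) = W (fun d => (ad 0 s ++ [co 0 s]).count d)

/-- AR. Inductions on the lists. -/
def ARStmt : Prop :=
  (∀ (c : ℕ) (x y : List ℕ), ad c (x ++ y) = ad c x ++ ad (co c x) y ∧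
    co c (x ++ y) = co (co c x) y) ∧
  (∀ (c : ℕ) (x : List ℕ), (ad c x).length = x.length) ∧
  (∀ (c n s : ℕ), c ≤ 1 → s ≤ 18 →
    ad c (List.replicate (n + 1) s) = (s + c) % 10 :: List.replicate n ((s + (s + c) / 10) % 10) ∧
    co c (List.replicate (n + 1) s) = (s + c) / 10) ∧
  (∀ (c : ℕ) (x : List ℕ), c ≤ 1 → (∀ s ∈ x, s ≤ 18) → co c x ≤ 1)

/-- DEC. interval_cases k; simp [wd, Hi, Lw, cv, lo, List.filter_append, List.filter_replicate]
(use v (lo k) = 0, v (k+1) = 0 from OK). -/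
def DECStmt : Prop := ∀ (k p q : ℕ) (v : ℕ → ℕ), OK k v →
  (1 ≤ k → wd (cv k p q v) = Hi k v ++ (List.replicate q (k + 1) ++
    (List.replicate p k ++ (Lw k v).reverse))) ∧
  (k = 0 → wd (cv k p q v) = List.replicate p 9 ++ (wd v ++ List.replicate q 1))

/-- HLP. As DEC (interval_cases k or general facts on wd v: it is sorted, entries 1..9,
count d = v d for 1 <= d <= 9). -/
def HLPStmt : Prop := ∀ (k : ℕ) (v : ℕ → ℕ), OK k v → 1 ≤ k →
  (Hi k v).Pairwise (· ≥ ·) ∧ (Lw k v).Pairwise (· ≤ ·) ∧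
  (∀ h ∈ Hi k v, k + 1 < h ∧ h ≤ 9) ∧ (∀ l ∈ Lw k v, 1 ≤ l ∧ l < k) ∧
  (∀ d, (Hi k v ++ Lw k v).count d = v d) ∧ (Hi k v).length + (Lw k v).length = tot v

/-- ZNP. Induction along zn. -/
def ZNPStmt : Prop := ∀ (k : ℕ) (H L : List ℕ),
  (zn k H L).length = max H.length L.length ∧
  (k ≤ 8 → (∀ h ∈ H, h ≤ 9) → (∀ l ∈ L, l < k) → ∀ s ∈ zn k H L, s ≤ 17)

/-- ZIP. Induction along zn: peel the first and the last letter of x.
Lemma: zipWith add (a :: (y ++ [b])) (a :: (y ++ [b])).reverse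
= (a + b) :: (zipWith add y y.reverse ++ [b + a]).
Case (h::H, l::L): x = h :: (y ++ [l]). Case (h::H, []): the last letter is a k (p + (H.length+1) is
a successor), replicate (n+1) k = replicate n k ++ [k]. Case ([], l::L): the first letter is k+1. -/
def ZIPStmt : Prop := ∀ (k : ℕ) (H L x : List ℕ) (p q : ℕ),
  x = H ++ (List.replicate (q + (L.length - H.length)) (k + 1) ++
    (List.replicate (p + (H.length - L.length)) k ++ L.reverse)) →
  List.zipWith (· + ·) x x.reverse = zn k H L ++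
    (List.zipWith (· + ·) (List.replicate q (k + 1) ++ List.replicate p k)
      (List.replicate p k ++ List.replicate q (k + 1)) ++ (zn k H L).reverse)

/-- MID. List.zipWith_append, replicate_add, zipWith of replicates. -/
def MIDStmt : Prop := ∀ k u w : ℕ,
  List.zipWith (· + ·) (List.replicate u (k + 1) ++ List.replicate (u + w) k)
      (List.replicate (u + w) k ++ List.replicate u (k + 1)) =
    List.replicate u (2 * k + 1) ++ (List.replicate w (2 * k) ++ List.replicate u (2 * k + 1)) ∧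
  List.zipWith (· + ·) (List.replicate (u + w) (k + 1) ++ List.replicate u k)
      (List.replicate u k ++ List.replicate (u + w) (k + 1)) =
    List.replicate u (2 * k + 1) ++ (List.replicate w (2 * k + 2) ++ List.replicate u (2 * k + 1))

/-- NXT (needs TW AR DEC HLP ZNP ZIP MID). The column sums are
Z ++ (rep u (2k+1) ++ rep w (2k+2δ) ++ rep u (2k+1)) ++ Z.reverse; AR gives the digits
(carry cR, then c1, c2, c3); count. For d = 0 nothing is used (W only looks at d = 1..9), but the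
equality of functions under W also holds at d = 0 up to the last entry; use a congruence lemma for W. -/
def NXTStmt : Prop := ∀ (k δ u w p q : ℕ) (v : ℕ → ℕ), OK k v → 1 ≤ k → δ ≤ 1 → 1 ≤ u → 1 ≤ w →
  (δ = 0 → (Hi k v).length + q = (Z k v).length + u ∧
    (Lw k v).length + p = (Hi k v).length + q + w) →
  (δ = 1 → (Lw k v).length + p = (Z k v).length + u ∧
    (Hi k v).length + q = (Lw k v).length + p + w) →
  Pool.RT.T (W (cv k p q v)) = W (fun d => (outs k δ v).count d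
    + (if d = (2 * k + 1 + c1 k (cR k v)) % 10 then u - 1 else 0)
    + (if d = (2 * k + 2 * δ + c2 k δ (cR k v)) % 10 then w - 1 else 0)
    + (if d = (2 * k + 1 + c3 k δ (cR k v)) % 10 then u - 1 else 0))

/-- the step from (k, v) with choice δ, no collapse -/
def Gd (k δ : ℕ) (v : ℕ → ℕ) : Prop :=
  ∃ e f : ℤ, |e| ≤ Mv v ∧ |f| ≤ Mv v ∧
    ∀ p q : ℕ,
      (δ = 0 → Mv v ≤ q → q + Mv v ≤ p → ∃ p' q' : ℕ,
        (p' : ℤ) = p - q + e ∧
        (q' : ℤ) = (if k = 4 ∧ cR 4 v = 1 then (1 : ℤ) else 2) * q + f ∧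
        Pool.RT.T (W (cv k p q v)) = W (cv (nk k δ) p' q' (stp k δ v))) ∧
      (δ = 1 → Mv v ≤ p → p + Mv v ≤ q → ∃ p' q' : ℕ,
        (p' : ℤ) = (if k = 4 then (1 : ℤ) else 2) * p + e ∧
        (q' : ℤ) = q - p + f ∧
        Pool.RT.T (W (cv k p q v)) = W (cv (nk k δ) p' q' (stp k δ v)))

/-- G1 (needs NXT HLP ZNP AR). k = 1..8: u, w from NXT: δ = 0: u = q + |Hi| - |Z|,
w = |Lw| + p - |Hi| - q; δ = 1: u = p + |Lw| - |Z|, w = |Hi| + q - |Lw| - p. interval_cases k, δ,
cR in {0, 1}: the steady digits are 0, lo (nk k δ) or nk k δ + 1; p' and q' are the corresponding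
multiples of u - 1, w - 1 plus counts of outs (count <= length = 2 |Z| + 4); for stray digits the
count is stp by definition. Checked by computer for 20000 random states. -/
def G1Stmt : Prop := ∀ (k δ : ℕ) (v : ℕ → ℕ), OK k v → 1 ≤ k → δ ≤ 1 → ¬ coll k δ v → Gd k δ v

/-- GC (needs NXT HLP ZNP AR). k = 4, δ = 1, cR = 1: c1 = c2 = c3 = 1, steady digits 0, 1, 0; all
other digits are in outs (length 2 |Z| + 4 <= Mv v). nz (W c) = c 2 + ... + c 9 because
Nat.digits 10 (W c) = wd c (no zero entry). -/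
def GCStmt : Prop := ∀ v : ℕ → ℕ, OK 4 v → cR 4 v = 1 → ∀ p q : ℕ, Mv v ≤ p → p + Mv v ≤ q →
  nz (Pool.RT.T (W (cv 4 p q v))) ≤ Mv v

/-- ZI0. Column sums of the words 9^(a+s+b) S 1^a and 9^a S 1^(a+s+b), s = S.length. -/
def ZI0Stmt : Prop := ∀ (S x : List ℕ) (a b : ℕ),
  (x = List.replicate (a + S.length + b) 9 ++ (S ++ List.replicate a 1) →
    List.zipWith (· + ·) x x.reverse = List.replicate a 10 ++ (S.reverse.map (9 + ·) ++
      (List.replicate b 18 ++ (S.map (· + 9) ++ List.replicate a 10)))) ∧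
  (x = List.replicate a 9 ++ (S ++ List.replicate (a + S.length + b) 1) →
    List.zipWith (· + ·) x x.reverse = List.replicate a 10 ++ (S.map (· + 1) ++
      (List.replicate b 2 ++ ((S.map (· + 1)).reverse ++ List.replicate a 10))))

/-- G0A (needs TW AR DEC ZI0), δ = 0: digits 0 1^(q-1), S reversed, 9^(p-q-tot v), S, 1^q, 1:
p' = p - q - tot v, q' = 2 q, strays 2 v. -/
def G0AStmt : Prop := ∀ v : ℕ → ℕ, OK 0 v → Gd 0 0 v

/-- G0B (needs TW AR DEC ZI0), δ = 1: digits 0 1^(p-1), ad 1 Z, 2 + co 1 Z, 2^(b-1), ad 0 Z.reverse,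
0 1^(p-1), 1 with Z = (wd v).map (. + 1), b = q - p - tot v: p' = 2 p - 1 + (outs0 v).count 1,
q' = b - 1 + (outs0 v).count 2. -/
def G0BStmt : Prop := ∀ v : ℕ → ℕ, OK 0 v → Gd 0 1 v

/-- OKS. By definition of stp. -/
def OKSStmt : Prop := ∀ (k δ : ℕ) (v : ℕ → ℕ), OK k v → OK (nk k δ) (stp k δ v)

/-! ### Part 2: codes -/

/-- ENC. gt 1 .. gt 9 of enc v by omega (numerals 4^(d-1)). -/
def ENCStmt : Prop := ∀ v : ℕ → ℕ, enc v < 262144 ∧
  (∀ d, 1 ≤ d → d ≤ 9 → gt d (enc v) = min (v d) 2) ∧ Mt (enc v) v ∧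
  (∀ a : ℕ, Mt a (fun _ => 0) → fin9 a = true) ∧
  (∀ v' : ℕ → ℕ, (∀ d, 1 ≤ d → d ≤ 9 → min (v d) 2 = min (v' d) 2) → enc v = enc v')

/-- SAD. interval_cases d; unfold; omega (place d - 1 of enc f is min (f d) 2). -/
def SADStmt : Prop := ∀ (d : ℕ) (f : ℕ → ℕ), d ≤ 9 →
  sadd d (enc f) = enc (fun x => f x + if x = d then 1 else 0)

/-- CLR. interval_cases d. -/
def CLRStmt : Prop := ∀ (d : ℕ) (f : ℕ → ℕ), 1 ≤ d → d ≤ 9 →
  clr d (enc f) = enc (fun x => if x = d then 0 else f x)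

/-- CDX. Decoding (omega). -/
def CDXStmt : Prop := ∀ a o c g : ℕ, a < 262144 → o < 262144 → c ≤ 1 → g ≤ 1 →
  ca (cd a o c g) = a ∧ cO (cd a o c g) = o ∧ cc (cd a o c g) = c ∧ cg (cd a o c g) = g

/-! ### Part 3: the column automaton -/

/-- HIO. f = counts of all remaining strays (those above k+1 are the counts of H). Induction on d in
hi k d a (claim for all a with Mt a f and f = 0 on digits above d): class 0: f (d+1) = 0, go on;
class 3: if f (d+1) = 0 go on with class 0, else (d+1, a); class 1: f (d+1) = 1, now 0;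
class 2: f (d+1) >= 2, now >= 1, i.e. 1 or >= 2; d <= k: H = []. The head h of H is the largest digit
with f > 0. -/
def HIOStmt : Prop := ∀ (k a : ℕ) (H : List ℕ) (f : ℕ → ℕ), 1 ≤ k → k ≤ 8 →
  H.Pairwise (· ≥ ·) → (∀ h ∈ H, k + 1 < h ∧ h ≤ 9) → (∀ d, k + 1 < d → f d = H.count d) →
  Mt a f →
  (∀ (h : ℕ) (H' : List ℕ), H = h :: H' →
    ∃ x ∈ hi k 9 a, x.1 = h ∧ Mt x.2 (fun d => f d - if d = h then 1 else 0)) ∧
  (H = [] → ∃ x ∈ hi k 9 a, x.1 = k + 1 ∧ Mt x.2 f)

/-- LWO. The same for the low digits (lw k f d a looks at the digit d + 1). -/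
def LWOStmt : Prop := ∀ (k a : ℕ) (L : List ℕ) (f : ℕ → ℕ), 1 ≤ k → k ≤ 8 →
  L.Pairwise (· ≤ ·) → (∀ l ∈ L, 1 ≤ l ∧ l < k) → (∀ d, 1 ≤ d → d < k → f d = L.count d) →
  Mt a f →
  (∀ (l : ℕ) (L' : List ℕ), L = l :: L' →
    ∃ x ∈ lw k 8 0 a, x.1 = l ∧ Mt x.2 (fun d => f d - if d = l then 1 else 0)) ∧
  (L = [] → ∃ x ∈ lw k 8 0 a, x.1 = k ∧ Mt x.2 f)

/-- SND (needs HIO LWO SAD CDX ENC AR). Induction along zn. Empty: a' = a. Else zn = s :: Z' with
s = h + l, h = k+1 (l = k) if H (L) is empty; (zn ..).reverse = Z'.reverse ++ [s], so with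
g' = co g Z'.reverse (<= 1): cg X = (s + g') / 10, ad g (zn ..).reverse = ad g Z'.reverse ++
[(s + g') % 10]. The letters from HIO, LWO; nx1 X h a'' l g' gives a configuration of I to which the
induction hypothesis applies with c' = (s + c) / 10 and f' = f + two digits (SAD twice). -/
def SNDStmt : Prop := ∀ (k : ℕ) (I : List ℕ), 1 ≤ k → k ≤ 8 →
  (∀ X ∈ I, ∀ Y ∈ nxt k X, Y ∈ I) →
  ∀ (H L : List ℕ), H.Pairwise (· ≥ ·) → L.Pairwise (· ≤ ·) → (∀ h ∈ H, k + 1 < h ∧ h ≤ 9) →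
    (∀ l ∈ L, 1 ≤ l ∧ l < k) →
  ∀ (a c g : ℕ) (f : ℕ → ℕ), Mt a (fun d => (H ++ L).count d) → c ≤ 1 → g ≤ 1 →
    cd a (enc f) c (co g (zn k H L).reverse) ∈ I →
    ∃ a' : ℕ, Mt a' (fun _ => 0) ∧
      cd a' (enc (fun d => f d + (ad c (zn k H L)).count d + (ad g (zn k H L).reverse).count d))
        (co c (zn k H L)) g ∈ I

/-- RES (needs SND HLP ZNP ENC SAD CLR CDX AR). okI: start configurations, closed (mem = membership).
Apply SND with H = Hi k v, L = Lw k v, c = 0, g = c3 k δ (cR k v), f = count in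
[co g (Z k v).reverse] (enc of it is 0 or 1). The final configuration X has fin9, cg X = g,
cc X = cR k v, and res k δ X = enc (stp k δ v) by SAD and CLR. -/
def RESStmt : Prop := ∀ (k δ a : ℕ) (I S : List ℕ) (v : ℕ → ℕ), OK k v → 1 ≤ k → δ ≤ 1 →
  Mt a v → okI k δ a I S = true → coll k δ v ∨ enc (stp k δ v) ∈ S

/-! ### Part 4: the certificate -/

/-- check of the certificate: entries (k, δ, a, S, I); done = keys already treated -/
def chk : List ℕ → List (ℕ × ℕ × ℕ × List ℕ × List ℕ) → Bool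
  | _, [] => true
  | done, (k, δ, a, S, I) :: rest =>
    decide (1 ≤ k) && decide (k ≤ 8) && decide (δ ≤ 1) && decide (a < 262144) && okI k δ a I S &&
      S.all (fun b => mem (nk k δ * 262144 + b) done) && chk ((k * 262144 + a) :: done) rest

/-- every state with key x reaches a collapse along some word of length at most n -/
def Gk (n x : ℕ) : Prop := ∀ (k : ℕ) (v : ℕ → ℕ), OK k v → x = k * 262144 + enc v →
  ∃ w : List ℕ, (∀ δ ∈ w, δ ≤ 1) ∧ w.length ≤ n ∧ CW w k v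

/-- GAM (needs RES ENC OKS). Induction on C. For the first entry: coll or enc (stp ..) in S, whose key
is in done: the word is [δ] or δ :: w. -/
def GAMStmt : Prop := ∀ (C : List (ℕ × ℕ × ℕ × List ℕ × List ℕ)) (done : List ℕ) (n : ℕ),
  (∀ x ∈ done, Gk n x) → chk done C = true →
  ∀ e ∈ C, Gk (n + C.length) (e.1 * 262144 + e.2.2.1)

/-- PLM (needs GAM RES OKS). t = top code at k = 4. From any k four steps lead to k = 4: the word is
the binary expansion of (4 + 2k) % 9 (four bits, first bit first; decide for k <= 8);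
CW w' after the four steps gives CW (u ++ w'). -/
def PLMStmt : Prop := ∀ (C : List (ℕ × ℕ × ℕ × List ℕ × List ℕ)) (t : ℕ) (S I : List ℕ),
  chk [] C = true → okI 4 0 t I S = true → (∀ v, OK 4 v → Mt t v) →
  (∀ b ∈ S, mem (8 * 262144 + b) (C.map fun e => e.1 * 262144 + e.2.2.1) = true) →
  ∀ (k : ℕ) (v : ℕ → ℕ), OK k v →
    ∃ w : List ℕ, (∀ δ ∈ w, δ ≤ 1) ∧ w.length ≤ C.length + 5 ∧ CW w k v

end Pool.RCC
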