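import Pool.Agent.H20.RCC.GC2
import Pool.Agent.H42.RAT2.Sys

/-!
Board rcc: the symbolic system of helper42 from the rows.
-/

set_option autoImplicit false

namespace Pool.RCC

/-- every state has a winning word of length at most m -/
def WinStmt (m : ℕ) : Prop := ∀ (k : ℕ) (v : ℕ → ℕ), OK k v →
  ∃ w : List ℕ, (∀ δ ∈ w, δ ≤ 1) ∧ w.length ≤ m ∧ CW w k v

def Qt : Type := {x : ℕ × (ℕ → ℕ) // OK x.1 x.2}

def bN (x : Bool) : ℕ := if x = true then 1 else 0

theorem bN_false : bN false = 0 := rfl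
theorem bN_true : bN true = 1 := rfl

theorem rats_eq : Pool.RAT.rats = Pool.RT.T := rfl

theorem nz_eq (m : ℕ) : (Nat.digits 10 m).countP (fun d => decide (d ≠ 1)) = nz m := by
  unfold nz
  rw [List.countP_eq_length_filter]

theorem W_q0 (a b : ℕ) : W (cv 1 a b (fun _ => 0)) = Nat.ofDigits 10 (Pool.RAT.tw 2 1 b a) := by
  simp [W, wd, cv, lo, Pool.RAT.tw]

theorem OK_q0 : OK 1 (fun _ => 0) := by
  refine ⟨by norm_num, rfl, fun _ _ => rfl, rfl, rfl⟩

theorem Gd_all (h1 : G1Stmt) (hA : G0AStmt) (hB : G0BStmt) (k δ : ℕ) (v : ℕ → ℕ) (hv : OK k v)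
    (hδ : δ ≤ 1) (hc : ¬ coll k δ v) : Gd k δ v := by
  rcases Nat.eq_zero_or_pos k with hk | hk
  · subst hk
    have : δ = 0 ∨ δ = 1 := by omega
    rcases this with rfl | rfl
    · exact hA v hv
    · exact hB v hv
  · exact h1 k δ v hv hk hδ hc

open Classical in
/-- the corrections -/
noncomputable def ee (k δ : ℕ) (v : ℕ → ℕ) : ℤ × ℤ :=
  if h : Gd k δ v then (Classical.choose h, Classical.choose (Classical.choose_spec h)) else (0, 0)

theorem ee_spec (k δ : ℕ) (v : ℕ → ℕ) (h : Gd k δ v) :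
    ∀ p q : ℕ,
      (δ = 0 → Mv v ≤ q → q + Mv v ≤ p → ∃ p' q' : ℕ,
        (p' : ℤ) = p - q + (ee k δ v).1 ∧
        (q' : ℤ) = (if k = 4 ∧ cR 4 v = 1 then (1 : ℤ) else 2) * q + (ee k δ v).2 ∧
        Pool.RT.T (W (cv k p q v)) = W (cv (nk k δ) p' q' (stp k δ v))) ∧
      (δ = 1 → Mv v ≤ p → p + Mv v ≤ q → ∃ p' q' : ℕ,
        (p' : ℤ) = (if k = 4 then (1 : ℤ) else 2) * p + (ee k δ v).1 ∧
        (q' : ℤ) = q - p + (ee k δ v).2 ∧
        Pool.RT.T (W (cv k p q v)) = W (cv (nk k δ) p' q' (stp k δ v))) := by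
  have h2 := (Classical.choose_spec (Classical.choose_spec h)).2.2
  simp only [ee, dif_pos h]
  exact h2

theorem goal_of_CW (hO : OKSStmt) (w : List ℕ) : ∀ (q : Qt), (∀ δ ∈ w, δ ≤ 1) → CW w q.1.1 q.1.2 →
    Pool.RAT.Goal (Q := Qt)
      (fun q x => ⟨(nk q.1.1 (bN x), stp q.1.1 (bN x) q.1.2), hO _ _ _ q.2⟩)
      (fun q x => coll q.1.1 (bN x) q.1.2) q (w.map fun d => decide (d = 1)) := by
  induction w with
  | nil => intro q _ h; exact h
  | cons δ w ih =>
    intro q hw h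
    have hδ : bN (decide (δ = 1)) = δ := by
      have := hw δ (by simp)
      have : δ = 0 ∨ δ = 1 := by omega
      rcases this with rfl | rfl <;> rfl
    rw [List.map_cons]
    rcases h with h | h
    · left
      show coll _ (bN (decide (δ = 1))) _
      rw [hδ]; exact h
    · right
      have := ih ⟨(nk q.1.1 δ, stp q.1.1 δ q.1.2), hO _ _ _ q.2⟩
        (fun x hx => hw x (by simp [hx])) h
      have e : (⟨(nk q.1.1 (bN (decide (δ = 1))), stp q.1.1 (bN (decide (δ = 1))) q.1.2),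
          hO _ _ _ q.2⟩ : Qt) = ⟨(nk q.1.1 δ, stp q.1.1 δ q.1.2), hO _ _ _ q.2⟩ := by
        apply Subtype.ext
        simp only [hδ]
      show Pool.RAT.Goal _ _ (⟨(nk q.1.1 (bN (decide (δ = 1))), stp q.1.1 (bN (decide (δ = 1))) q.1.2),
          hO _ _ _ q.2⟩ : Qt) _
      rw [e]
      exact this

/-- the symbolic system -/
noncomputable def sysM (h1 : G1Stmt) (hA : G0AStmt) (hB : G0BStmt) (hC : GC2Stmt) (hO : OKSStmt)
    (m : ℕ) (hW : WinStmt m) : Pool.RAT.Sys where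
  Q := Qt
  num q a b := W (cv q.1.1 a b q.1.2)
  st q x := ⟨(nk q.1.1 (bN x), stp q.1.1 (bN x) q.1.2), hO _ _ _ q.2⟩
  del q x := if x = true then decide (q.1.1 = 4) else decide (q.1.1 = 4 ∧ cR 4 q.1.2 = 1)
  e1 q x := (ee q.1.1 (bN x) q.1.2).1
  e2 q x := (ee q.1.1 (bN x) q.1.2).2
  C q := Mv q.1.2
  suc q x := coll q.1.1 (bN x) q.1.2
  q0 := ⟨(1, fun _ => 0), OK_q0⟩
  h0 := by
    intro q hs a b a' b' hab hb ha' hb'
    have hg := Gd_all h1 hA hB q.1.1 0 q.1.2 q.2 (by omega) hs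
    obtain ⟨p', q', hp, hq, hT⟩ := (ee_spec _ _ _ hg a b).1 rfl hb hab
    rw [rats_eq]
    have e1 : a' = p' := by
      have : (a' : ℤ) = (p' : ℤ) := by rw [ha', hp]; rfl
      exact_mod_cast this
    have e2 : b' = q' := by
      have : (b' : ℤ) = (q' : ℤ) := by
        rw [hb', hq]
        simp only [bN_false]
        by_cases hk : q.1.1 = 4 ∧ cR 4 q.1.2 = 1 <;> simp [hk]
      exact_mod_cast this
    rw [e1, e2]
    exact hT
  h1 := by
    intro q hs a b a' b' hab ha ha' hb'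
    have hg := Gd_all h1 hA hB q.1.1 1 q.1.2 q.2 (le_refl _) hs
    obtain ⟨p', q', hp, hq, hT⟩ := (ee_spec _ _ _ hg a b).2 rfl ha hab
    rw [rats_eq]
    have e1 : a' = p' := by
      have : (a' : ℤ) = (p' : ℤ) := by
        rw [ha', hp]
        simp only [bN_true]
        by_cases hk : q.1.1 = 4 <;> simp [hk]
      exact_mod_cast this
    have e2 : b' = q' := by
      have : (b' : ℤ) = (q' : ℤ) := by rw [hb', hq]; rfl
      exact_mod_cast this
    rw [e1, e2]
    exact hT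
  hs0 := by
    intro q h
    exact absurd h.2.1 (by simp [bN_false])
  hs1 := by
    rintro ⟨⟨k, v⟩, hv⟩ h
    obtain ⟨hk, -, hc⟩ := h
    simp only at hk hc hv
    subst hk
    refine ⟨Mv v, fun a b hab ha => ?_⟩
    rw [nz_eq, rats_eq]
    obtain ⟨c1, c2⟩ := hC v hv hc a b ha hab
    exact ⟨c1, c2.trans (Nat.add_le_add_left List.count_le_length _)⟩
  hdel := by
    intro q x y h
    have hk : q.1.1 = 4 := by
      by_contra hne
      cases x <;> simp [hne] at h
    have h4 : nk q.1.1 (bN x) ≠ 4 := by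
      rw [hk]
      cases x <;> simp [nk, bN]
    cases y <;> simp [h4]
  W := m
  win := by
    intro q
    obtain ⟨w, hw, hl, hc⟩ := hW q.1.1 q.1.2 q.2
    exact ⟨w.map fun d => decide (d = 1), by simpa using hl, goal_of_CW hO w q hw hc⟩
  hq0 := fun a b => W_q0 a b

end Pool.RCC
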