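import Pool.Agent.H20.RCC.CertTop
import Pool.Agent.H20.RCC.SysM
import Pool.Agent.H18.RT.CTO
import Pool.Agent.H21.RT.TWD
import Pool.Agent.H44.RT.STP
import Pool.Agent.H14.RCC.TW
import Pool.Agent.H21.RCC.HLP
import Pool.Agent.H34.RCC.LWO
import Pool.Agent.H42.RCC.SND
import Pool.Agent.H45.RCC.MID
import Pool.Agent.H46.RCC.SAD
import Pool.Agent.H52.RCC.RES
import Pool.Agent.H54.RCC.DEC
import Pool.Agent.H56.RCC.CDX
import Pool.Agent.H62.RCC.HIO
import Pool.Agent.H66.RCC.ENC
import Pool.Agent.H66.RCC.OKS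
import Pool.Agent.H76.RCC.ZI0
import Pool.Agent.H78.RCC.GAM
import Pool.Agent.H90.RCC.GC
import Pool.Agent.H90.RCC.NXT
import Pool.Agent.H91.RCC.AR
import Pool.Agent.H93.RCC.G0A
import Pool.Agent.H93.RCC.ZNP
import Pool.Agent.H98.RCC.G0B
import Pool.Agent.H20.RCC.CLRb
import Pool.Agent.H20.RCC.PLMb
import Pool.Agent.H40.RCC.ZIP
import Pool.Agent.H20.RCC.G1b

/-!
Board rcc: assembly. The symbolic system of the RATS map with its winning words.
-/

set_option autoImplicit false

namespace Pool.RCC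

theorem stp_full : Pool.RT.STPStmt := Pool.RT.STP_thm Pool.RT.CTO_thm Pool.RT.TWD_thm

theorem tw_full : TWStmt := TW_thm stp_full

theorem nxt_full : NXTStmt := NXT_thm tw_full AR_thm DEC_thm HLP_thm ZNP_thm ZIP_thm MID_thm

theorem g1_full : G1Stmt := G1_thmB nxt_full HLP_thm ZNP_thm AR_thm

theorem gc_full : GC2Stmt := GC2_thm nxt_full HLP_thm ZNP_thm AR_thm

theorem g0a_full : G0AStmt := G0A_thm tw_full AR_thm DEC_thm ZI0_thm

theorem g0b_full : G0BStmt := G0B_thm tw_full AR_thm DEC_thm ZI0_thm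

theorem snd_full : SNDStmt := SND_thm HIO_thm LWO_thm sad_thm CDX_thm ENC_thm AR_thm

theorem res_full : RESStmt := RES_thm snd_full HLP_thm ZNP_thm ENC_thm sad_thm CLR_thmB CDX_thm AR_thm

theorem gam_full : GAMStmt := GAM_thm res_full ENC_thm OKS_thm

theorem plm_full : PLMStmt := PLM_thmB gam_full res_full OKS_thm

theorem top_match (v : ℕ → ℕ) (hv : OK 4 v) : Mt 261183 v := by
  obtain ⟨-, -, -, h4, h5⟩ := hv
  have h4' : v 4 = 0 := by simpa [lo] using h4
  refine ⟨by norm_num, ?_⟩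
  intro d h1 h9
  interval_cases d
  · left; norm_num [gt]
  · left; norm_num [gt]
  · left; norm_num [gt]
  · right; rw [h4']; norm_num [gt]
  · right; rw [h5]; norm_num [gt]
  · left; norm_num [gt]
  · left; norm_num [gt]
  · left; norm_num [gt]
  · left; norm_num [gt]

theorem win : WinStmt (Crt.length + 5) :=
  plm_full Crt 261183 Stop Itop cert top_ok top_match top_keys

/-- the symbolic system of the RATS map -/
noncomputable def sysFinal : Pool.RAT.Sys :=
  sysM g1_full g0a_full g0b_full gc_full OKS_thm _ win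

end Pool.RCC
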